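import Pool.Agent.Helper12.CX.Defs
import Pool.Agent.Helper27.MONO.EXI

/-!
Existence of configurations with smaller phase.
-/

set_option autoImplicit false
noncomputable section
namespace Pool.Agent.Helper6.MONO

theorem exz_star (x y : V3) : star (hf x y) = hf y x := by
  simp only [hf, star_sub, star_add, star_mul', star_star]
  ring

/-- the Gram determinant is negative -/
theorem exz_det (e : Fin 3 → V3) (hu : ∀ i, hf (e i) (e i) = 1)
    (hi : LinearIndependent ℂ e) :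
    0 < ‖hf (e 0) (e 1)‖ ^ 2 + ‖hf (e 1) (e 2)‖ ^ 2 + ‖hf (e 2) (e 0)‖ ^ 2 - 1
      - 2 * (trip e).re := by
  have hE : (Matrix.of e).det ≠ 0 := by
    have h1 : LinearIndependent ℂ (Matrix.of e).row := hi
    have h2 := Matrix.linearIndependent_rows_iff_isUnit.1 h1
    exact ((Matrix.isUnit_iff_isUnit_det _).1 h2).ne_zero
  have h1 : (Matrix.of fun i j : Fin 3 => hf (e i) (e j)) =
      Matrix.of e * Matrix.diagonal ![(1 : ℂ), 1, -1] * (Matrix.of e).conjTranspose := by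
    ext i j
    rw [Matrix.mul_apply]
    simp only [Matrix.mul_diagonal, Fin.sum_univ_three, Matrix.conjTranspose_apply,
      Matrix.of_apply, Matrix.cons_val_zero, Matrix.cons_val_one, Matrix.cons_val, hf]
    ring
  have h2 := congrArg Matrix.det h1
  rw [Matrix.det_mul, Matrix.det_mul, Matrix.det_diagonal, Matrix.det_conjTranspose,
    Fin.prod_univ_three, Matrix.det_fin_three] at h2
  simp only [Matrix.of_apply, Matrix.cons_val_zero, Matrix.cons_val_one, Matrix.cons_val, hu] at h2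
  have h3 : (Matrix.of e).det * star (Matrix.of e).det =
      ((Complex.normSq (Matrix.of e).det : ℝ) : ℂ) := Complex.mul_conj _
  have n01 : hf (e 0) (e 1) * hf (e 1) (e 0) = ((‖hf (e 0) (e 1)‖ ^ 2 : ℝ) : ℂ) := by
    rw [← exz_star (e 0) (e 1)]; exact exi_ns _
  have n12 : hf (e 1) (e 2) * hf (e 2) (e 1) = ((‖hf (e 1) (e 2)‖ ^ 2 : ℝ) : ℂ) := by
    rw [← exz_star (e 1) (e 2)]; exact exi_ns _
  have n20 : hf (e 2) (e 0) * hf (e 0) (e 2) = ((‖hf (e 2) (e 0)‖ ^ 2 : ℝ) : ℂ) := by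
    rw [← exz_star (e 2) (e 0)]; exact exi_ns _
  have h4 : hf (e 0) (e 2) * hf (e 1) (e 0) * hf (e 2) (e 1) = star (trip e) := by
    unfold trip
    rw [star_mul', star_mul', exz_star, exz_star, exz_star]
    ring
  have h5 : (1 : ℂ) - ((‖hf (e 0) (e 1)‖ ^ 2 : ℝ) : ℂ) - ((‖hf (e 1) (e 2)‖ ^ 2 : ℝ) : ℂ)
      - ((‖hf (e 2) (e 0)‖ ^ 2 : ℝ) : ℂ) + trip e + star (trip e)
      = -((Complex.normSq (Matrix.of e).det : ℝ) : ℂ) := by
    rw [← h3, ← n01, ← n12, ← n20, ← h4]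
    have h6 : -((Matrix.of e).det * star (Matrix.of e).det)
      = (Matrix.of e).det * (1 * 1 * -1) * star (Matrix.of e).det := by ring
    rw [h6, ← h2]
    unfold trip
    ring
  have h7 := congrArg Complex.re h5
  simp only [Complex.add_re, Complex.sub_re, Complex.one_re, Complex.ofReal_re, Complex.neg_re]
    at h7
  have h8 : (star (trip e)).re = (trip e).re := Complex.conj_re _
  rw [h8] at h7
  have hp : 0 < Complex.normSq (Matrix.of e).det := Complex.normSq_pos.2 hE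
  linarith

theorem exz_cos (p : ℕ) (hp : 3 ≤ p) : 0 < Real.cos (Real.pi / p) ∧
    Real.cos (Real.pi / p) < 1 := by
  have hp' : (3 : ℝ) ≤ p := by exact_mod_cast hp
  have hpi := Real.pi_pos
  have h1 : Real.pi / p ≤ Real.pi / 3 := div_le_div_of_nonneg_left hpi.le (by norm_num) hp'
  have h2 : 0 < Real.pi / p := by positivity
  constructor
  · apply Real.cos_pos_of_mem_Ioo
    constructor <;> linarith
  · have h3 : Real.cos (Real.pi / p) < Real.cos 0 :=
      Real.cos_lt_cos_of_nonneg_of_le_pi (le_refl _) (by linarith) h2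
    rwa [Real.cos_zero] at h3

theorem st_EXZ : ST_EXZ := by
  intro p q r hp hq hr e he z z' hz hz' htr hre
  obtain ⟨hc1p, hc1'⟩ := exz_cos p hp
  obtain ⟨hc2p, hc2'⟩ := exz_cos q hq
  obtain ⟨hc3p, hc3'⟩ := exz_cos r hr
  have hdet := exz_det e he.unit he.indep
  have a1 := he.ang1
  have a2 := he.ang2
  have a3 := he.ang3
  set c1 := Real.cos (Real.pi / p) with hc1d
  set c2 := Real.cos (Real.pi / q) with hc2d
  set c3 := Real.cos (Real.pi / r) with hc3d
  have htn : ‖trip e‖ = c1 * c2 * c3 := by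
    unfold trip
    rw [norm_mul, norm_mul, a1, a2, a3]
  have htre : (trip e).re = -(c1 * c2 * c3 * z.re) := by
    have h := congrArg Complex.re htr
    rw [Complex.neg_re, Complex.re_ofReal_mul, htn] at h
    linarith
  rw [a1, a2, a3, htre] at hdet
  have hs2 : 0 < 1 - c1 ^ 2 := by nlinarith
  set s := Real.sqrt (1 - c1 ^ 2) with hs
  have hsp : 0 < s := Real.sqrt_pos.2 hs2
  have hss : s ^ 2 = 1 - c1 ^ 2 := Real.sq_sqrt hs2.le
  set X : ℂ := -((c3 : ℂ) * z') with hX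
  set Y : ℂ := ((-c2 : ℝ) + (c1 : ℂ) * X) / (s : ℂ) with hY
  have hsC : (s : ℂ) ≠ 0 := by exact_mod_cast hsp.ne'
  have hXn : ‖X‖ ^ 2 = c3 ^ 2 := by
    rw [hX, norm_neg, norm_mul, hz', Complex.norm_real, Real.norm_of_nonneg hc3p.le,
      mul_one]
  have hz2 : z'.re ^ 2 + z'.im ^ 2 = 1 := by
    have h := Complex.normSq_eq_norm_sq z'
    rw [hz', Complex.normSq_apply] at h
    nlinarith
  have hYn : ‖Y‖ ^ 2 = (c2 ^ 2 + 2 * c1 * c2 * c3 * z'.re + c1 ^ 2 * c3 ^ 2) / s ^ 2 := by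
    rw [hY, norm_div, div_pow, Complex.norm_real, Real.norm_of_nonneg hsp.le]
    congr 1
    have h3 : ((-c2 : ℝ) : ℂ) + (c1 : ℂ) * X = ((-c2 - c1 * c3 * z'.re : ℝ) : ℂ) +
        ((-(c1 * c3 * z'.im) : ℝ) : ℂ) * Complex.I := by
      rw [hX]
      apply Complex.ext <;> simp <;> ring
    rw [← Complex.normSq_eq_norm_sq, h3, Complex.normSq_add_mul_I]
    linear_combination (c1 ^ 2 * c3 ^ 2) * hz2
  set w2 := ‖X‖ ^ 2 + ‖Y‖ ^ 2 - 1 with hw2
  have hw2v : w2 = (c1 ^ 2 + c2 ^ 2 + c3 ^ 2 - 1 + 2 * c1 * c2 * c3 * z'.re) / s ^ 2 := by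
    rw [hw2, hXn, hYn, eq_div_iff (by positivity), sub_mul, add_mul,
      div_mul_cancel₀ _ (by positivity), hss]
    ring
  have hw2p : 0 < w2 := by
    rw [hw2v]
    apply div_pos _ (by positivity)
    have h3 : 0 < c1 * c2 * c3 := by positivity
    have h4 : c1 * c2 * c3 * z.re ≤ c1 * c2 * c3 * z'.re := mul_le_mul_of_nonneg_left hre h3.le
    nlinarith
  set W := Real.sqrt w2 with hW
  have hWp : 0 < W := Real.sqrt_pos.2 hw2p
  have hWW : W ^ 2 = w2 := Real.sq_sqrt hw2p.le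
  have hst : ∀ x : ℝ, star (x : ℂ) = (x : ℂ) := fun x => Complex.conj_ofReal x
  have hYs : star Y = ((-c2 : ℝ) + (c1 : ℂ) * star X) / (s : ℂ) := by
    rw [hY, star_div₀, star_add, star_mul', hst, hst, hst]
  have h01 : hf ![1, 0, 0] ![-(c1 : ℂ), (s : ℂ), 0] = -(c1 : ℂ) := by
    rw [exi_hf, star_neg, hst]; ring
  have h20 : hf ![X, Y, (W : ℂ)] ![1, 0, 0] = X := by
    rw [exi_hf, star_one, star_zero]; ring
  have h12 : hf ![-(c1 : ℂ), (s : ℂ), 0] ![X, Y, (W : ℂ)] = -(c2 : ℂ) := by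
    rw [exi_hf, hYs, mul_div_cancel₀ _ hsC]
    push_cast; ring
  have hWC : (W : ℂ) ≠ 0 := by exact_mod_cast hWp.ne'
  refine ⟨![![1, 0, 0], ![-(c1 : ℂ), (s : ℂ), 0], ![X, Y, (W : ℂ)]],
    ⟨?_, ?_, ?_, ?_, exi_indep _ _ _ _ _ hsC hWC⟩, ?_⟩
  · intro i
    fin_cases i
    · change hf ![1, 0, 0] ![1, 0, 0] = 1
      rw [exi_hf, star_one, star_zero]; ring
    · exact exi_unit1 c1 s (by nlinarith)
    · exact exi_unit2 X Y W (by nlinarith)
  · change ‖hf ![1, 0, 0] ![-(c1 : ℂ), (s : ℂ), 0]‖ = c1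
    rw [h01, norm_neg, Complex.norm_real, Real.norm_of_nonneg hc1p.le]
  · change ‖hf ![-(c1 : ℂ), (s : ℂ), 0] ![X, Y, (W : ℂ)]‖ = c2
    rw [h12, norm_neg, Complex.norm_real, Real.norm_of_nonneg hc2p.le]
  · change ‖hf ![X, Y, (W : ℂ)] ![1, 0, 0]‖ = c3
    rw [h20, hX, norm_neg, norm_mul, hz', mul_one, Complex.norm_real,
      Real.norm_of_nonneg hc3p.le]
  · have h3 : trip ![![1, 0, 0], ![-(c1 : ℂ), (s : ℂ), 0], ![X, Y, (W : ℂ)]]
        = -(((c1 * c2 * c3 : ℝ) : ℂ) * z') := by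
      change hf ![1, 0, 0] ![-(c1 : ℂ), (s : ℂ), 0] *
        hf ![-(c1 : ℂ), (s : ℂ), 0] ![X, Y, (W : ℂ)] * hf ![X, Y, (W : ℂ)] ![1, 0, 0] = _
      rw [h01, h12, h20, hX]
      push_cast
      ring
    rw [h3, neg_neg, norm_neg, norm_mul, hz', mul_one, Complex.norm_real,
      Real.norm_of_nonneg (by positivity)]

end Pool.Agent.Helper6.MONO
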