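import Pool.Agent.Helper12.CX.Defs

/-!
Below the threshold `W_A` is elliptic.
-/

set_option autoImplicit false
noncomputable section
namespace Pool.Agent.Helper6.MONO

theorem tha_star (x y : V3) : star (hf x y) = hf y x := by
  simp only [hf, star_sub, star_add, star_mul', star_star]
  ring

/-- the vector orthogonal to `u` and `v` -/
def thX (u v : V3) : V3 :=
  ![star (u 1) * star (v 2) - star (u 2) * star (v 1),
    star (u 2) * star (v 0) - star (u 0) * star (v 2),
    -(star (u 0) * star (v 1) - star (u 1) * star (v 0))]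

theorem thX_left (u v : V3) : hf (thX u v) u = 0 := by
  simp only [hf, thX, Matrix.cons_val_zero, Matrix.cons_val_one, Matrix.cons_val]
  ring

theorem thX_right (u v : V3) : hf (thX u v) v = 0 := by
  simp only [hf, thX, Matrix.cons_val_zero, Matrix.cons_val_one, Matrix.cons_val]
  ring

theorem thX_self (u v : V3) :
    hf (thX u v) (thX u v) = hf u v * hf v u - hf u u * hf v v := by
  simp only [hf, thX, Matrix.cons_val_zero, Matrix.cons_val_one, Matrix.cons_val, star_sub,
    star_mul', star_star, star_neg]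
  ring

theorem tha_refl_invol (n x : V3) (h : hf n n = 1) : refl n (refl n x) = x := by
  unfold refl
  have : hf (x - (2 * hf x n) • n) n = -hf x n := by
    have : hf (x - (2 * hf x n) • n) n = hf x n - 2 * hf x n * hf n n := by
      simp only [hf, Pi.sub_apply, Pi.smul_apply, smul_eq_mul]
      ring
    rw [this, h]; ring
  rw [this]
  ext i
  simp only [Pi.sub_apply, Pi.smul_apply, smul_eq_mul]
  ring

theorem tha_refl_fix (n x : V3) (h : hf x n = 0) : refl n x = x := by
  unfold refl
  rw [h]
  simp

theorem tha_refl_adj (n x y : V3) : hf (refl n x) y = hf x (refl n y) := by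
  unfold refl
  have h1 : hf (x - (2 * hf x n) • n) y = hf x y - 2 * hf x n * hf n y := by
    simp only [hf, Pi.sub_apply, Pi.smul_apply, smul_eq_mul]
    ring
  have h2 : hf x (y - (2 * hf y n) • n) = hf x y - 2 * star (hf y n) * hf x n := by
    simp only [hf, Pi.sub_apply, Pi.smul_apply, smul_eq_mul, star_sub, star_mul', star_add,
      star_star, star_ofNat]
    ring
  rw [h1, h2, tha_star]
  ring

theorem st_THA : ST_THA := by
  intro p q r hp hq hr e he z hz htr hx
  have kp : ∀ m : ℕ, 3 ≤ m → 0 < Real.cos (Real.pi / m) := by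
    intro m hm
    have hm' : (3 : ℝ) ≤ m := by exact_mod_cast hm
    have hpi := Real.pi_pos
    have h1 : Real.pi / m ≤ Real.pi / 3 := div_le_div_of_nonneg_left hpi.le (by norm_num) hm'
    have h2 : 0 < Real.pi / m := by positivity
    apply Real.cos_pos_of_mem_Ioo
    constructor <;> linarith
  have hc1 := kp p hp
  have hc2 := kp q hq
  have hc3 := kp r hr
  have a1 := he.ang1
  have a2 := he.ang2
  have a3 := he.ang3
  have hxA : xA p q r = (4 - (2 * Real.cos (Real.pi / r)) ^ 2
      - (2 * Real.cos (Real.pi / p)) ^ 2 * (2 * Real.cos (Real.pi / q)) ^ 2) /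
      (2 * Real.cos (Real.pi / p) * (2 * Real.cos (Real.pi / q)) *
        (2 * Real.cos (Real.pi / r))) := by
    simp [xA, kk, mm, Kp]
  rw [hxA] at hx
  set c1 := Real.cos (Real.pi / p) with hc1d
  set c2 := Real.cos (Real.pi / q) with hc2d
  set c3 := Real.cos (Real.pi / r) with hc3d
  rw [lt_div_iff₀ (by positivity)] at hx
  have htn : ‖trip e‖ = c1 * c2 * c3 := by
    unfold trip
    rw [norm_mul, norm_mul, a1, a2, a3]
  have htre : (trip e).re = -(c1 * c2 * c3 * z.re) := by
    have h := congrArg Complex.re htr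
    rw [Complex.neg_re, Complex.re_ofReal_mul, htn] at h
    linarith
  -- the second mirror
  set u := e 0 with hu
  set v := refl (e 1) (e 2) with hv
  have huu : hf u u = 1 := he.unit 0
  have hvv : hf v v = 1 := by
    rw [hv, tha_refl_adj, tha_refl_invol _ _ (he.unit 1)]
    exact he.unit 2
  have huv : hf u v = hf (e 0) (e 2) - 2 * hf (e 0) (e 1) * hf (e 1) (e 2) := by
    rw [hv, hu]
    unfold refl
    have h2 : hf (e 0) (e 2 - (2 * hf (e 2) (e 1)) • e 1)
        = hf (e 0) (e 2) - 2 * star (hf (e 2) (e 1)) * hf (e 0) (e 1) := by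
      simp only [hf, Pi.sub_apply, Pi.smul_apply, smul_eq_mul, star_sub, star_mul', star_add,
        star_star, star_ofNat]
      ring
    rw [h2, tha_star]
    ring
  have hn : Complex.normSq (hf u v) = c3 ^ 2 + 4 * c1 ^ 2 * c2 ^ 2 + 4 * (c1 * c2 * c3 * z.re) := by
    have e02 : hf (e 0) (e 2) = star (hf (e 2) (e 0)) := (tha_star _ _).symm
    rw [huv, Complex.normSq_sub]
    have t1 : Complex.normSq (hf (e 0) (e 2)) = c3 ^ 2 := by
      rw [e02, Complex.star_def, Complex.normSq_conj, Complex.normSq_eq_norm_sq, a3]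
    have t2 : Complex.normSq (2 * hf (e 0) (e 1) * hf (e 1) (e 2)) = 4 * c1 ^ 2 * c2 ^ 2 := by
      rw [Complex.normSq_mul, Complex.normSq_mul, Complex.normSq_eq_norm_sq (hf (e 0) (e 1)),
        Complex.normSq_eq_norm_sq (hf (e 1) (e 2)), a1, a2]
      norm_num
    have t3 : (hf (e 0) (e 2) * (starRingEnd ℂ) (2 * hf (e 0) (e 1) * hf (e 1) (e 2))).re
        = 2 * (trip e).re := by
      have : hf (e 0) (e 2) * (starRingEnd ℂ) (2 * hf (e 0) (e 1) * hf (e 1) (e 2))
          = (starRingEnd ℂ) (2 * trip e) := by
        rw [e02]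
        unfold trip
        simp only [map_mul, Complex.star_def]
        ring
      rw [this, Complex.conj_re]
      simp
    rw [t1, t2, t3, htre]
    ring
  refine ⟨thX u v, ?_, 1, ?_⟩
  · unfold Neg
    rw [thX_self, huu, hvv, ← tha_star u v]
    have : hf u v * star (hf u v) = ((Complex.normSq (hf u v) : ℝ) : ℂ) := Complex.mul_conj _
    rw [this, hn]
    simp only [Complex.sub_re, Complex.ofReal_re, one_mul, Complex.one_re]
    nlinarith
  · rw [one_smul]
    set x := thX u v with hx'
    have hxu : hf x (e 0) = 0 := thX_left u v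
    have hxv : hf x v = 0 := thX_right u v
    have h1 : refl (e 2) (refl (e 1) x) = refl (e 1) x := by
      apply tha_refl_fix
      rw [tha_refl_adj]
      exact hxv
    change refl (e 0) (refl (e 1) (refl (e 2) (refl (e 1) x))) = x
    rw [h1, tha_refl_invol _ _ (he.unit 1)]
    exact tha_refl_fix _ _ hxu

end Pool.Agent.Helper6.MONO
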